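import Mathlib

set_option autoImplicit false

/-!
# The symmetric Lovász local lemma for product spaces `I → Fin q`, in counting form
-/

namespace Pool.Agent.H38.SCD

open Finset

variable {I : Type} [DecidableEq I] {q : ℕ}

/-- the event `P` depends only on the coordinates in `J` -/
def DependsOn' (J : Finset I) (P : (I → Fin q) → Prop) : Prop :=
  ∀ f g : I → Fin q, (∀ x ∈ J, f x = g x) → (P f ↔ P g)

/-- swap the coordinates in `J` -/
def swapOn (J : Finset I) (f g : I → Fin q) : I → Fin q := fun x => if x ∈ J then f x else g x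

theorem swapOn_mem {J : Finset I} {f g : I → Fin q} {x : I} (hx : x ∈ J) : swapOn J f g x = f x := by
  simp [swapOn, hx]

theorem swapOn_not_mem {J : Finset I} {f g : I → Fin q} {x : I} (hx : x ∉ J) :
    swapOn J f g x = g x := by
  simp [swapOn, hx]

theorem swapOn_swapOn (J : Finset I) (f g : I → Fin q) :
    swapOn J (swapOn J f g) (swapOn J g f) = f := by
  funext x
  by_cases hx : x ∈ J <;> simp [swapOn, hx]

variable [Fintype I]

/-- number of labellings with `P` -/
noncomputable def cn (P : (I → Fin q) → Prop) : ℝ := by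
  classical
  exact ((univ.filter P).card : ℝ)

theorem cn_eq (P : (I → Fin q) → Prop) [DecidablePred P] : cn P = ((univ.filter P).card : ℝ) := by
  unfold cn
  congr

theorem cn_nonneg (P : (I → Fin q) → Prop) : 0 ≤ cn P := by
  unfold cn; positivity

theorem cn_mono {P Q : (I → Fin q) → Prop} (h : ∀ f, P f → Q f) : cn P ≤ cn Q := by
  classical
  unfold cn
  exact_mod_cast Finset.card_le_card (fun f hf => by
    rw [mem_filter] at hf ⊢
    exact ⟨hf.1, h f hf.2⟩)

theorem cn_congr {P Q : (I → Fin q) → Prop} (h : ∀ f, P f ↔ Q f) : cn P = cn Q :=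
  le_antisymm (cn_mono fun f => (h f).1) (cn_mono fun f => (h f).2)

theorem cn_true : cn (fun _ : I → Fin q => True) = (q : ℝ) ^ Fintype.card I := by
  classical
  unfold cn
  simp

/-- independence of events which depend on disjoint sets of coordinates -/
theorem cn_indep {J K : Finset I} (hJK : Disjoint J K) {P Q : (I → Fin q) → Prop}
    (hP : DependsOn' J P) (hQ : DependsOn' K Q) :
    cn (fun f => P f ∧ Q f) * cn (fun _ : I → Fin q => True) = cn P * cn Q := by
  classical
  unfold cn
  rw [← Nat.cast_mul, ← Nat.cast_mul, ← card_product, ← card_product]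
  congr 1
  refine Finset.card_nbij' (fun x => (swapOn J x.1 x.2, swapOn J x.2 x.1))
    (fun x => (swapOn J x.1 x.2, swapOn J x.2 x.1)) ?_ ?_ ?_ ?_
  · rintro ⟨h, w⟩ hx
    simp only [coe_product, Set.mem_prod, mem_coe, mem_filter, mem_univ, true_and, and_true] at hx ⊢
    refine ⟨(hP _ _ fun x hx' => swapOn_mem hx').2 hx.1, (hQ _ _ fun x hx' => ?_).2 hx.2⟩
    exact swapOn_not_mem (fun h' => (Finset.disjoint_left.1 hJK h') hx')
  · rintro ⟨f, g⟩ hx
    simp only [coe_product, Set.mem_prod, mem_coe, mem_filter, mem_univ, true_and, and_true] at hx ⊢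
    refine ⟨(hP _ _ fun x hx' => swapOn_mem hx').2 hx.1, (hQ _ _ fun x hx' => ?_).2 hx.2⟩
    exact swapOn_not_mem (fun h' => (Finset.disjoint_left.1 hJK h') hx')
  · rintro ⟨f, g⟩ _
    exact Prod.ext (swapOn_swapOn J f g) (swapOn_swapOn J g f)
  · rintro ⟨f, g⟩ _
    exact Prod.ext (swapOn_swapOn J f g) (swapOn_swapOn J g f)

theorem cn_or_le (P Q : (I → Fin q) → Prop) : cn (fun f => P f ∨ Q f) ≤ cn P + cn Q := by
  classical
  rw [cn_eq, cn_eq, cn_eq, filter_or]
  exact_mod_cast card_union_le _ _

theorem cn_split (P Q : (I → Fin q) → Prop) :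
    cn P = cn (fun f => Q f ∧ P f) + cn (fun f => P f ∧ ¬ Q f) := by
  classical
  rw [cn_eq, cn_eq, cn_eq, ← Nat.cast_add, Nat.cast_inj, ← Finset.card_union_of_disjoint]
  · refine congrArg Finset.card (Finset.ext fun f => ?_)
    rw [mem_union, mem_filter, mem_filter, mem_filter]
    tauto
  · rw [Finset.disjoint_left]
    intro f h1 h2
    exact (mem_filter.1 h2).2.2 (mem_filter.1 h1).2.1

theorem cn_exists_le {ι : Type} [DecidableEq ι] (S : Finset ι) (A : ι → (I → Fin q) → Prop)
    (N : (I → Fin q) → Prop) :
    cn (fun f => (∃ i ∈ S, A i f) ∧ N f) ≤ ∑ i ∈ S, cn (fun f => A i f ∧ N f) := by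
  induction S using Finset.induction_on with
  | empty =>
    simp only [notMem_empty, false_and, exists_false, sum_empty]
    classical
    unfold cn
    simp
  | insert i S hi ih =>
    rw [sum_insert hi]
    refine le_trans (cn_mono (Q := fun f => (A i f ∧ N f) ∨ ((∃ i ∈ S, A i f) ∧ N f)) ?_)
      (le_trans (cn_or_le _ _) (by linarith))
    rintro f ⟨⟨i', hi', h⟩, hN⟩
    rcases mem_insert.1 hi' with rfl | h'
    · exact Or.inl ⟨h, hN⟩
    · exact Or.inr ⟨⟨i', h', h⟩, hN⟩

/-- no event of `S` happens -/
def Av {ι : Type} (A : ι → (I → Fin q) → Prop) (S : Finset ι) (f : I → Fin q) : Prop :=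
  ∀ i ∈ S, ¬ A i f

/-- **Symmetric local lemma.** -/
theorem local_lemma {ι : Type} [DecidableEq ι] [Fintype ι] (hq : 0 < q)
    (A : ι → (I → Fin q) → Prop) (vbl : ι → Finset I) (hA : ∀ i, DependsOn' (vbl i) (A i))
    (p : ℝ) (D : ℕ) (hD : 1 ≤ D) (hp : ∀ i, cn (A i) ≤ p * (q : ℝ) ^ Fintype.card I)
    (hdeg : ∀ i, (univ.filter fun k => ¬ Disjoint (vbl k) (vbl i)).card ≤ D)
    (hpD : 4 * p * D ≤ 1) : ∃ f : I → Fin q, ∀ i, ¬ A i f := by
  classical
  have hΩ : (0 : ℝ) < (q : ℝ) ^ Fintype.card I := by
    have : (0 : ℝ) < q := by exact_mod_cast hq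
    positivity
  have hDr : (1 : ℝ) ≤ D := by exact_mod_cast hD
  by_cases hι : IsEmpty ι
  · exact ⟨fun _ => ⟨0, hq⟩, fun i => (hι.false i).elim⟩
  rw [not_isEmpty_iff] at hι
  obtain ⟨i00⟩ := hι
  have hp0 : 0 ≤ p := by
    by_contra h
    push Not at h
    have := hp i00
    have h2 := cn_nonneg (A i00)
    nlinarith
  have hp4 : p ≤ 1 / 4 := by nlinarith
  have key : ∀ S : Finset ι, 0 < cn (Av A S) ∧
      ∀ i, i ∉ S → cn (fun f => A i f ∧ Av A S f) ≤ 2 * p * cn (Av A S) := by
    intro S
    induction S using Finset.strongInduction with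
    | H S ih =>
      have hpos : 0 < cn (Av A S) := by
        rcases S.eq_empty_or_nonempty with rfl | ⟨i0, hi0⟩
        · rw [cn_congr (Q := fun _ => True) (fun f => by simp [Av]), cn_true]
          exact hΩ
        · have hsub : S.erase i0 ⊂ S := Finset.erase_ssubset hi0
          obtain ⟨h1, h2⟩ := ih _ hsub
          have h3 := h2 i0 (Finset.notMem_erase i0 S)
          have h4 := cn_split (Av A (S.erase i0)) (A i0)
          have h5 : cn (fun f => Av A (S.erase i0) f ∧ ¬ A i0 f) = cn (Av A S) := by
            refine cn_congr fun f => ?_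
            constructor
            · rintro ⟨ha, hb⟩ i hi
              by_cases hii : i = i0
              · rw [hii]; exact hb
              · exact ha i (Finset.mem_erase.2 ⟨hii, hi⟩)
            · intro h
              exact ⟨fun i hi => h i (Finset.mem_of_mem_erase hi), h i0 hi0⟩
          rw [h5] at h4
          nlinarith
      refine ⟨hpos, fun i hi => ?_⟩
      set S1 := S.filter (fun k => ¬ Disjoint (vbl k) (vbl i)) with hS1
      set S2 := S.filter (fun k => Disjoint (vbl k) (vbl i)) with hS2
      have hindep : cn (fun f => A i f ∧ Av A S2 f) ≤ p * cn (Av A S2) := by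
        have hdep : DependsOn' (S2.biUnion vbl) (Av A S2) := by
          intro f g hfg
          unfold Av
          constructor
          · intro h k hk hk'
            exact h k hk ((hA k f g (fun x hx => hfg x (mem_biUnion.2 ⟨k, hk, hx⟩))).2 hk')
          · intro h k hk hk'
            exact h k hk ((hA k f g (fun x hx => hfg x (mem_biUnion.2 ⟨k, hk, hx⟩))).1 hk')
        have hdis : Disjoint (vbl i) (S2.biUnion vbl) := by
          rw [Finset.disjoint_biUnion_right]
          intro k hk
          exact ((mem_filter.1 hk).2).symm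
        have h1 := cn_indep hdis (hA i) hdep
        rw [cn_true] at h1
        have h2 := hp i
        have h3 := cn_nonneg (Av A S2)
        have h4 : cn (fun f => A i f ∧ Av A S2 f) * (q : ℝ) ^ Fintype.card I
            ≤ (p * cn (Av A S2)) * (q : ℝ) ^ Fintype.card I := by
          rw [h1]
          nlinarith
        exact le_of_mul_le_mul_right h4 hΩ
      have hle : cn (fun f => A i f ∧ Av A S f) ≤ cn (fun f => A i f ∧ Av A S2 f) :=
        cn_mono fun f h => ⟨h.1, fun k hk => h.2 k (mem_filter.1 hk).1⟩
      have hhalf : cn (Av A S2) ≤ 2 * cn (Av A S) := by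
        by_cases hemp : S1 = ∅
        · have : S2 = S := by
            rw [hS2]
            refine Finset.filter_true_of_mem fun k hk => ?_
            by_contra h
            have : k ∈ S1 := mem_filter.2 ⟨hk, h⟩
            rw [hemp] at this
            exact notMem_empty _ this
          rw [this]
          linarith
        · have hss : S2 ⊂ S := by
            refine ⟨filter_subset _ _, fun h => hemp ?_⟩
            rw [Finset.eq_empty_iff_forall_notMem]
            intro k hk
            have hk' := mem_filter.1 hk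
            exact hk'.2 (mem_filter.1 (h hk'.1)).2
          obtain ⟨g1, g2⟩ := ih S2 hss
          have h4 := cn_split (Av A S2) (fun f => ∃ k ∈ S1, A k f)
          have h5 : cn (fun f => Av A S2 f ∧ ¬ ∃ k ∈ S1, A k f) ≤ cn (Av A S) := by
            refine cn_mono fun f hf k hk hk' => ?_
            by_cases hd : Disjoint (vbl k) (vbl i)
            · exact hf.1 k (mem_filter.2 ⟨hk, hd⟩) hk'
            · exact hf.2 ⟨k, mem_filter.2 ⟨hk, hd⟩, hk'⟩
          have h6 := cn_exists_le S1 A (Av A S2)
          have h7 : ∑ k ∈ S1, cn (fun f => A k f ∧ Av A S2 f) ≤ ∑ _k ∈ S1, 2 * p * cn (Av A S2) := by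
            refine Finset.sum_le_sum fun k hk => g2 k fun hk2 => ?_
            exact (mem_filter.1 hk).2 (mem_filter.1 hk2).2
          rw [Finset.sum_const, nsmul_eq_mul] at h7
          have h8 : (S1.card : ℝ) ≤ D := by
            have : S1.card ≤ D := le_trans (Finset.card_le_card (fun k hk => by
              rw [mem_filter]
              exact ⟨mem_univ _, (mem_filter.1 hk).2⟩)) (hdeg i)
            exact_mod_cast this
          have h9 : (S1.card : ℝ) * (2 * p * cn (Av A S2)) ≤ (1 / 2) * cn (Av A S2) := by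
            have : (S1.card : ℝ) * (2 * p * cn (Av A S2)) ≤ D * (2 * p * cn (Av A S2)) :=
              mul_le_mul_of_nonneg_right h8 (by positivity)
            nlinarith
          linarith
      nlinarith [cn_nonneg (Av A S)]
  obtain ⟨hpos, _⟩ := key univ
  unfold cn at hpos
  have h1 : 0 < (univ.filter (Av A (univ : Finset ι))).card := by exact_mod_cast hpos
  obtain ⟨f, hf⟩ := Finset.card_pos.1 h1
  exact ⟨f, fun i => (mem_filter.1 hf).2 i (mem_univ _)⟩

end Pool.Agent.H38.SCD
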