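import Pool.Agent.H18.SCD.T2
import Pool.Agent.H76.SCD.Q3a
import Pool.Agent.H38.SCD.LLL

set_option autoImplicit false

/-!
# Concentration of nested counts for a random labelling
-/

namespace Pool.Agent.H38.SCD

open Finset Pool.Agent.H18.SCD

noncomputable def ind (P : Prop) : ℝ := by
  classical
  exact if P then 1 else 0

theorem ind_nonneg (P : Prop) : 0 ≤ ind P := by
  classical
  unfold ind
  split_ifs <;> norm_num

theorem ind_le_one (P : Prop) : ind P ≤ 1 := by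
  classical
  unfold ind
  split_ifs <;> norm_num

theorem ind_pos {P : Prop} (h : P) : ind P = 1 := by
  classical
  unfold ind
  rw [if_pos h]

theorem ind_neg {P : Prop} (h : ¬ P) : ind P = 0 := by
  classical
  unfold ind
  rw [if_neg h]

theorem ind_and (P Q : Prop) : ind (P ∧ Q) = ind P * ind Q := by
  by_cases hP : P <;> by_cases hQ : Q
  · rw [ind_pos hP, ind_pos hQ, ind_pos ⟨hP, hQ⟩]; norm_num
  · rw [ind_neg hQ, ind_neg (fun h => hQ h.2)]; norm_num
  · rw [ind_neg hP, ind_neg (fun h => hP h.1)]; norm_num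
  · rw [ind_neg hP, ind_neg (fun h => hP h.1)]; norm_num

theorem ind_congr {P Q : Prop} (h : P ↔ Q) : ind P = ind Q := by
  rw [propext h]

theorem cn_eq_sum {I : Type} [DecidableEq I] [Fintype I] {q : ℕ} (P : (I → Fin q) → Prop) :
    cn P = ∑ f, ind (P f) := by
  classical
  rw [cn_eq, card_filter]
  push_cast
  refine sum_congr rfl fun f _ => ?_
  by_cases h : P f
  · rw [if_pos h, ind_pos h]
  · rw [if_neg h, ind_neg h]

section Cond

variable {I ι : Type} [Fintype I] [DecidableEq I] [DecidableEq ι] {q : ℕ}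

theorem sum_coord (hq : 0 < q) (i : I) (Λ : Finset (Fin q)) (K : (I → Fin q) → ℝ)
    (hK : ∀ f a, K (Function.update f i a) = K f) :
    ∑ f, K f * ind (f i ∈ Λ) = ((Λ.card : ℝ) / q) * ∑ f, K f := by
  classical
  have hq' : (q : ℝ) ≠ 0 := by exact_mod_cast hq.ne'
  have h := resample (fun f => K f * ind (f i ∈ Λ)) i
  have h2 : ∀ f : I → Fin q, ∑ a : Fin q, (K (Function.update f i a) *
      ind ((Function.update f i a) i ∈ Λ)) = K f * Λ.card := by
    intro f
    simp only [hK, Function.update_self]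
    rw [← mul_sum]
    congr 1
    have h3 : ∀ a : Fin q, ind (a ∈ Λ) = if a ∈ Λ then (1 : ℝ) else 0 := by
      intro a
      by_cases ha : a ∈ Λ
      · rw [ind_pos ha, if_pos ha]
      · rw [ind_neg ha, if_neg ha]
    simp [h3]
  simp only [h2] at h
  rw [← sum_mul] at h
  field_simp
  linarith

theorem cond_mgf (hq : 0 < q) (w : Fin 3 → ι → I) (Λ : Fin 3 → Finset (Fin q))
    (uv : (I → Fin q) → ι → ℝ) (z : ℝ) (S : Finset ι) :
    ∀ (_ : ∀ p ∈ S, ∀ p' ∈ S, ∀ m m', w m p = w m' p' → m = m' ∧ p = p')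
      (_ : ∀ p ∈ S, ∀ p' ∈ S, ∀ m a f, uv (Function.update f (w m p') a) p = uv f p)
      (H : (I → Fin q) → ℝ) (_ : ∀ p ∈ S, ∀ m a f, H (Function.update f (w m p) a) = H f),
    ∑ f, H f * ∏ p ∈ S, (1 + (z - 1) * (uv f p * ind (f (w 0 p) ∈ Λ 0) * ind (f (w 1 p) ∈ Λ 1) *
        ind (f (w 2 p) ∈ Λ 2)))
      = ∑ f, H f * ∏ p ∈ S, (1 + (z - 1) * (((Λ 0).card / q : ℝ) * ((Λ 1).card / q : ℝ) *
        ((Λ 2).card / q : ℝ)) * uv f p) := by
  induction S using Finset.induction_on with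
  | empty =>
    intro _ _ H _
    simp
  | insert p0 S hp0 ih =>
    intro hw huv H hH
    set t : ℝ := ((Λ 0).card / q : ℝ) * ((Λ 1).card / q : ℝ) * ((Λ 2).card / q : ℝ) with ht
    have hw' : ∀ p ∈ S, ∀ p' ∈ S, ∀ m m', w m p = w m' p' → m = m' ∧ p = p' :=
      fun p hp p' hp' => hw p (mem_insert_of_mem hp) p' (mem_insert_of_mem hp')
    have huv' : ∀ p ∈ S, ∀ p' ∈ S, ∀ m a f, uv (Function.update f (w m p') a) p = uv f p :=
      fun p hp p' hp' => huv p (mem_insert_of_mem hp) p' (mem_insert_of_mem hp')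
    set K : (I → Fin q) → ℝ := fun f => H f * ∏ p ∈ S, (1 + (z - 1) * (uv f p *
      ind (f (w 0 p) ∈ Λ 0) * ind (f (w 1 p) ∈ Λ 1) * ind (f (w 2 p) ∈ Λ 2))) with hKdef
    have hp0m : p0 ∈ insert p0 S := mem_insert_self _ _
    have hne : ∀ m m' (p : ι), p ∈ S → w m p ≠ w m' p0 := by
      intro m m' p hp h
      have := (hw p (mem_insert_of_mem hp) p0 hp0m m m' h).2
      exact hp0 (this ▸ hp)
    have hne0 : ∀ m m' : Fin 3, m ≠ m' → w m p0 ≠ w m' p0 := by
      intro m m' hmm h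
      exact hmm (hw p0 hp0m p0 hp0m m m' h).1
    have hK : ∀ m f a, K (Function.update f (w m p0) a) = K f := by
      intro m f a
      simp only [hKdef]
      rw [hH p0 hp0m m a f]
      congr 1
      refine prod_congr rfl fun p hp => ?_
      rw [huv p (mem_insert_of_mem hp) p0 hp0m m a f,
        Function.update_of_ne (hne 0 m p hp), Function.update_of_ne (hne 1 m p hp),
        Function.update_of_ne (hne 2 m p hp)]
    have huv0 : ∀ m f a, uv (Function.update f (w m p0) a) p0 = uv f p0 :=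
      fun m f a => huv p0 hp0m p0 hp0m m a f
    have hL : ∀ f, H f * ∏ p ∈ insert p0 S, (1 + (z - 1) * (uv f p * ind (f (w 0 p) ∈ Λ 0) *
        ind (f (w 1 p) ∈ Λ 1) * ind (f (w 2 p) ∈ Λ 2)))
        = K f + (z - 1) * (K f * uv f p0 * ind (f (w 0 p0) ∈ Λ 0) * ind (f (w 1 p0) ∈ Λ 1) *
          ind (f (w 2 p0) ∈ Λ 2)) := by
      intro f
      rw [prod_insert hp0]
      simp only [hKdef]
      ring
    have e2 : ∑ f, K f * uv f p0 * ind (f (w 0 p0) ∈ Λ 0) * ind (f (w 1 p0) ∈ Λ 1) *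
          ind (f (w 2 p0) ∈ Λ 2) = t * ∑ f, K f * uv f p0 := by
      rw [sum_coord hq (w 2 p0) (Λ 2)
        (fun f => K f * uv f p0 * ind (f (w 0 p0) ∈ Λ 0) * ind (f (w 1 p0) ∈ Λ 1)) ?_]
      · rw [sum_coord hq (w 1 p0) (Λ 1) (fun f => K f * uv f p0 * ind (f (w 0 p0) ∈ Λ 0)) ?_]
        · rw [sum_coord hq (w 0 p0) (Λ 0) (fun f => K f * uv f p0) ?_]
          · rw [ht]; ring
          · intro f a
            simp only [hK, huv0]
        · intro f a
          simp only [hK, huv0]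
          rw [Function.update_of_ne (hne0 0 1 (by decide))]
      · intro f a
        simp only [hK, huv0]
        rw [Function.update_of_ne (hne0 0 2 (by decide)), Function.update_of_ne (hne0 1 2 (by decide))]
    calc ∑ f, H f * ∏ p ∈ insert p0 S, (1 + (z - 1) * (uv f p * ind (f (w 0 p) ∈ Λ 0) *
        ind (f (w 1 p) ∈ Λ 1) * ind (f (w 2 p) ∈ Λ 2)))
        = ∑ f, (K f + (z - 1) * (K f * uv f p0 * ind (f (w 0 p0) ∈ Λ 0) *
            ind (f (w 1 p0) ∈ Λ 1) * ind (f (w 2 p0) ∈ Λ 2))) := sum_congr rfl fun f _ => hL f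
      _ = ∑ f, K f + (z - 1) * (t * ∑ f, K f * uv f p0) := by
          rw [sum_add_distrib, ← mul_sum, e2]
      _ = ∑ f, (H f * (1 + (z - 1) * t * uv f p0)) * ∏ p ∈ S, (1 + (z - 1) * (uv f p *
            ind (f (w 0 p) ∈ Λ 0) * ind (f (w 1 p) ∈ Λ 1) * ind (f (w 2 p) ∈ Λ 2))) := by
          rw [← mul_assoc, mul_sum, ← sum_add_distrib]
          refine sum_congr rfl fun f _ => ?_
          simp only [hKdef]
          ring
      _ = ∑ f, (H f * (1 + (z - 1) * t * uv f p0)) * ∏ p ∈ S, (1 + (z - 1) * t * uv f p) := by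
          refine ih hw' huv' (fun f => H f * (1 + (z - 1) * t * uv f p0)) ?_
          intro p hp m a f
          rw [hH p (mem_insert_of_mem hp) m a f, huv p0 hp0m p (mem_insert_of_mem hp) m a f]
      _ = _ := by
          refine sum_congr rfl fun f _ => ?_
          rw [prod_insert hp0]
          ring

end Cond

theorem prod_ind {ι : Type} [DecidableEq ι] (S : Finset ι) (P : ι → Prop) [DecidablePred P] (c : ℝ) :
    ∏ p ∈ S, (1 + c * ind (P p)) = (1 + c) ^ (S.filter P).card := by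
  rw [← prod_const, prod_filter]
  refine prod_congr rfl fun p _ => ?_
  by_cases h : P p
  · rw [ind_pos h, if_pos h, mul_one]
  · rw [ind_neg h, if_neg h, mul_zero, add_zero]

section Tail

variable {I α β : Type} [Fintype I] [DecidableEq I] [DecidableEq α] [DecidableEq β] {q : ℕ}

theorem hits_image (X : Finset α) (u : α → I) (hu : ∀ x ∈ X, ∀ x' ∈ X, u x = u x' → x = x')
    (Λ : Finset (Fin q)) (f : I → Fin q) :
    Pool.Agent.H76.SCD.hits (X.image u) (fun _ => Λ) f = (X.filter fun x => f (u x) ∈ Λ).card := by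
  unfold Pool.Agent.H76.SCD.hits
  rw [filter_image, card_image_of_injOn]
  intro x hx x' hx' h
  exact hu x (mem_filter.1 hx).1 x' (mem_filter.1 hx').1 h

theorem one_side (hq : 0 < q) (X : Finset α) (u : α → I)
    (hu : ∀ x ∈ X, ∀ x' ∈ X, u x = u x' → x = x') (Λ : Finset (Fin q)) (T : ℝ)
    (hT : 30000 * T ≤ (Λ.card : ℝ) / q * X.card) :
    cn (fun f : I → Fin q =>
        ((X.filter fun x => f (u x) ∈ Λ).card : ℝ) ≤ (99 / 100) * ((Λ.card : ℝ) / q * X.card)
        ∨ (101 / 100) * ((Λ.card : ℝ) / q * X.card) ≤ ((X.filter fun x => f (u x) ∈ Λ).card : ℝ))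
      ≤ 2 * Real.exp (-T) * (q : ℝ) ^ Fintype.card I := by
  classical
  have hcard : ((X.image u).card : ℝ) = X.card := by
    rw [card_image_of_injOn]
    intro x hx x' hx' h
    exact hu x hx x' hx' h
  have h1 := Pool.Agent.H76.SCD.hits_low hq (X.image u) (fun _ => Λ) Λ.card (fun _ _ => rfl) (1 / 100)
    (by norm_num)
  have h2 := Pool.Agent.H76.SCD.hits_up hq (X.image u) (fun _ => Λ) Λ.card (fun _ _ => rfl) (1 / 100)
    (by norm_num) (by norm_num)
  rw [hcard] at h1 h2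
  simp only [hits_image X u hu] at h1 h2
  refine le_trans (cn_or_le _ _) ?_
  have hQ : (0 : ℝ) ≤ (q : ℝ) ^ Fintype.card I := by positivity
  have hM : 0 ≤ (Λ.card : ℝ) / q * X.card := by positivity
  have e1 : cn (fun f : I → Fin q =>
      ((X.filter fun x => f (u x) ∈ Λ).card : ℝ) ≤ (99 / 100) * ((Λ.card : ℝ) / q * X.card))
      ≤ Real.exp (-T) * (q : ℝ) ^ Fintype.card I := by
    rw [cn_eq]
    norm_num at h1 ⊢
    refine le_trans h1 (mul_le_mul_of_nonneg_right (Real.exp_le_exp.2 ?_) hQ)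
    linarith
  have e2 : cn (fun f : I → Fin q =>
      (101 / 100) * ((Λ.card : ℝ) / q * X.card) ≤ ((X.filter fun x => f (u x) ∈ Λ).card : ℝ))
      ≤ Real.exp (-T) * (q : ℝ) ^ Fintype.card I := by
    rw [cn_eq]
    norm_num at h2 ⊢
    refine le_trans h2 (mul_le_mul_of_nonneg_right (Real.exp_le_exp.2 ?_) hQ)
    linarith
  linarith

theorem mgf_nested (hq : 0 < q) (X : Finset α) (Y : Finset β) (u : α → I) (v : β → I)
    (w : Fin 3 → α × β → I)
    (hw : ∀ p ∈ X ×ˢ Y, ∀ p' ∈ X ×ˢ Y, ∀ m m', w m p = w m' p' → m = m' ∧ p = p')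
    (hwu : ∀ p ∈ X ×ˢ Y, ∀ m, ∀ x ∈ X, u x ≠ w m p) (hwv : ∀ p ∈ X ×ˢ Y, ∀ m, ∀ y ∈ Y, v y ≠ w m p)
    (Λu Λv : Finset (Fin q)) (Λ : Fin 3 → Finset (Fin q)) (Γ : ℕ → ℕ → Prop) (z t : ℝ)
    (ht : t = ((Λ 0).card / q : ℝ) * ((Λ 1).card / q : ℝ) * ((Λ 2).card / q : ℝ)) :
    ∑ f : I → Fin q, ind (Γ (X.filter fun x => f (u x) ∈ Λu).card (Y.filter fun y => f (v y) ∈ Λv).card)
        * z ^ ((X ×ˢ Y).filter fun p => (f (u p.1) ∈ Λu ∧ f (v p.2) ∈ Λv) ∧ f (w 0 p) ∈ Λ 0 ∧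
            f (w 1 p) ∈ Λ 1 ∧ f (w 2 p) ∈ Λ 2).card
      = ∑ f : I → Fin q,
        ind (Γ (X.filter fun x => f (u x) ∈ Λu).card (Y.filter fun y => f (v y) ∈ Λv).card)
        * (1 + (z - 1) * t) ^ ((X.filter fun x => f (u x) ∈ Λu).card *
            (Y.filter fun y => f (v y) ∈ Λv).card) := by
  classical
  have hX : ∀ p ∈ X ×ˢ Y, ∀ m a (f : I → Fin q),
      (X.filter fun x => Function.update f (w m p) a (u x) ∈ Λu) = X.filter fun x => f (u x) ∈ Λu := by
    intro p hp m a f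
    refine filter_congr fun x hx => ?_
    rw [Function.update_of_ne (hwu p hp m x hx)]
  have hY : ∀ p ∈ X ×ˢ Y, ∀ m a (f : I → Fin q),
      (Y.filter fun y => Function.update f (w m p) a (v y) ∈ Λv) = Y.filter fun y => f (v y) ∈ Λv := by
    intro p hp m a f
    refine filter_congr fun y hy => ?_
    rw [Function.update_of_ne (hwv p hp m y hy)]
  have h := cond_mgf hq w Λ (fun f p => ind (f (u p.1) ∈ Λu ∧ f (v p.2) ∈ Λv)) z (X ×ˢ Y) hw
    (by
      intro p hp p' hp' m a f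
      have hp1 := mem_product.1 hp
      rw [Function.update_of_ne (hwu p' hp' m _ hp1.1), Function.update_of_ne (hwv p' hp' m _ hp1.2)])
    (fun f => ind (Γ (X.filter fun x => f (u x) ∈ Λu).card (Y.filter fun y => f (v y) ∈ Λv).card))
    (by
      intro p hp m a f
      rw [hX p hp m a f, hY p hp m a f])
  refine Eq.trans (sum_congr rfl fun f _ => ?_) (Eq.trans h (sum_congr rfl fun f _ => ?_))
  · congr 1
    have e1 : ∀ p ∈ X ×ˢ Y, (1 + (z - 1) * (ind (f (u p.1) ∈ Λu ∧ f (v p.2) ∈ Λv) *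
        ind (f (w 0 p) ∈ Λ 0) * ind (f (w 1 p) ∈ Λ 1) * ind (f (w 2 p) ∈ Λ 2)))
        = 1 + (z - 1) * ind ((f (u p.1) ∈ Λu ∧ f (v p.2) ∈ Λv) ∧ f (w 0 p) ∈ Λ 0 ∧
            f (w 1 p) ∈ Λ 1 ∧ f (w 2 p) ∈ Λ 2) := by
      intro p _
      rw [ind_and (f (u p.1) ∈ Λu ∧ f (v p.2) ∈ Λv), ind_and (f (w 0 p) ∈ Λ 0),
        ind_and (f (w 1 p) ∈ Λ 1)]
      ring
    rw [prod_congr rfl e1, prod_ind]
    congr 1
    ring
  · congr 1
    rw [← ht]
    rw [prod_ind]
    congr 1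
    rw [Finset.filter_product (fun x => f (u x) ∈ Λu) (fun y => f (v y) ∈ Λv), card_product]

/-- **Nested count.** -/
theorem nested_tail (hq : 0 < q) (X : Finset α) (Y : Finset β) (u : α → I) (v : β → I)
    (w : Fin 3 → α × β → I)
    (hu : ∀ x ∈ X, ∀ x' ∈ X, u x = u x' → x = x') (hv : ∀ y ∈ Y, ∀ y' ∈ Y, v y = v y' → y = y')
    (hw : ∀ p ∈ X ×ˢ Y, ∀ p' ∈ X ×ˢ Y, ∀ m m', w m p = w m' p' → m = m' ∧ p = p')
    (hwu : ∀ p ∈ X ×ˢ Y, ∀ m, ∀ x ∈ X, u x ≠ w m p) (hwv : ∀ p ∈ X ×ˢ Y, ∀ m, ∀ y ∈ Y, v y ≠ w m p)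
    (Λu Λv : Finset (Fin q)) (Λ : Fin 3 → Finset (Fin q)) (T : ℝ)
    (hT1 : 30000 * T ≤ (Λu.card : ℝ) / q * X.card) (hT2 : 30000 * T ≤ (Λv.card : ℝ) / q * Y.card)
    (hT3 : 6000 * T ≤ (((Λ 0).card / q : ℝ) * ((Λ 1).card / q : ℝ) * ((Λ 2).card / q : ℝ)) *
      (((Λu.card : ℝ) / q * X.card) * ((Λv.card : ℝ) / q * Y.card))) :
    cn (fun f : I → Fin q => ¬ ((19 / 20) * ((((Λ 0).card / q : ℝ) * ((Λ 1).card / q : ℝ) *
          ((Λ 2).card / q : ℝ)) * (((Λu.card : ℝ) / q * X.card) * ((Λv.card : ℝ) / q * Y.card)))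
        ≤ (((X ×ˢ Y).filter fun p => (f (u p.1) ∈ Λu ∧ f (v p.2) ∈ Λv) ∧ f (w 0 p) ∈ Λ 0 ∧
            f (w 1 p) ∈ Λ 1 ∧ f (w 2 p) ∈ Λ 2).card : ℝ) ∧
        (((X ×ˢ Y).filter fun p => (f (u p.1) ∈ Λu ∧ f (v p.2) ∈ Λv) ∧ f (w 0 p) ∈ Λ 0 ∧
            f (w 1 p) ∈ Λ 1 ∧ f (w 2 p) ∈ Λ 2).card : ℝ)
          ≤ (21 / 20) * ((((Λ 0).card / q : ℝ) * ((Λ 1).card / q : ℝ) *
          ((Λ 2).card / q : ℝ)) * (((Λu.card : ℝ) / q * X.card) * ((Λv.card : ℝ) / q * Y.card)))))
      ≤ 6 * Real.exp (-T) * (q : ℝ) ^ Fintype.card I := by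
  classical
  have hq' : (0 : ℝ) < q := by exact_mod_cast hq
  have hQ : (0 : ℝ) ≤ (q : ℝ) ^ Fintype.card I := by positivity
  have hΛ1 : ∀ m, ((Λ m).card : ℝ) / q ≤ 1 := by
    intro m
    rw [div_le_one hq']
    have := card_le_univ (Λ m)
    rw [Fintype.card_fin] at this
    exact_mod_cast this
  have hΛ0 : ∀ m, 0 ≤ ((Λ m).card : ℝ) / q := fun m => by positivity
  have hone1 := one_side hq X u hu Λu T hT1
  have hone2 := one_side hq Y v hv Λv T hT2
  set a : ℝ := (Λu.card : ℝ) / q * X.card with ha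
  set b : ℝ := (Λv.card : ℝ) / q * Y.card with hb
  obtain ⟨t, ht⟩ : ∃ t : ℝ, t = ((Λ 0).card / q : ℝ) * ((Λ 1).card / q : ℝ) * ((Λ 2).card / q : ℝ) :=
    ⟨_, rfl⟩
  rw [← ht] at hT3 ⊢
  have ha0 : 0 ≤ a := by positivity
  have hb0 : 0 ≤ b := by positivity
  have ht0 : 0 ≤ t := by rw [ht]; positivity
  have ht1 : t ≤ 1 := by
    rw [ht]
    have h1 : ((Λ 0).card / q : ℝ) * ((Λ 1).card / q : ℝ) ≤ 1 := mul_le_one₀ (hΛ1 0) (hΛ0 1) (hΛ1 1)
    exact mul_le_one₀ h1 (hΛ0 2) (hΛ1 2)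
  have hab0 : 0 ≤ a * b := mul_nonneg ha0 hb0
  have hE0 : 0 ≤ t * (a * b) := mul_nonneg ht0 hab0
  set Xc : (I → Fin q) → ℕ := fun f => (X.filter fun x => f (u x) ∈ Λu).card with hXc
  set Yc : (I → Fin q) → ℕ := fun f => (Y.filter fun y => f (v y) ∈ Λv).card with hYc
  set Z : (I → Fin q) → ℕ := fun f => ((X ×ˢ Y).filter fun p => (f (u p.1) ∈ Λu ∧ f (v p.2) ∈ Λv) ∧
    f (w 0 p) ∈ Λ 0 ∧ f (w 1 p) ∈ Λ 1 ∧ f (w 2 p) ∈ Λ 2).card with hZ
  set Γ : ℕ → ℕ → Prop := fun x y => ¬ ((x : ℝ) ≤ (99 / 100) * a ∨ (101 / 100) * a ≤ (x : ℝ)) ∧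
    ¬ ((y : ℝ) ≤ (99 / 100) * b ∨ (101 / 100) * b ≤ (y : ℝ)) with hΓ
  have hmgf : ∀ z : ℝ, ∑ f : I → Fin q, ind (Γ (Xc f) (Yc f)) * z ^ (Z f)
      = ∑ f : I → Fin q, ind (Γ (Xc f) (Yc f)) * (1 + (z - 1) * t) ^ (Xc f * Yc f) :=
    fun z => mgf_nested hq X Y u v w hw hwu hwv Λu Λv Λ Γ z t ht
  -- bounds for the product on `Γ`
  have hΓup : ∀ x y : ℕ, Γ x y → ((x * y : ℕ) : ℝ) ≤ (101 / 100) * a * ((101 / 100) * b) := by
    intro x y h
    obtain ⟨h1, h2⟩ := h
    rw [not_or] at h1 h2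
    push_cast
    exact mul_le_mul (not_le.1 h1.2).le (not_le.1 h2.2).le (Nat.cast_nonneg _) (by positivity)
  have hΓlo : ∀ x y : ℕ, Γ x y → (99 / 100) * a * ((99 / 100) * b) ≤ ((x * y : ℕ) : ℝ) := by
    intro x y h
    obtain ⟨h1, h2⟩ := h
    rw [not_or] at h1 h2
    push_cast
    exact mul_le_mul (not_le.1 h1.1).le (not_le.1 h2.1).le (by positivity) (Nat.cast_nonneg _)
  -- upper tail
  have hup : cn (fun f : I → Fin q => Γ (Xc f) (Yc f) ∧ (21 / 20) * (t * (a * b)) < (Z f : ℝ))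
      ≤ Real.exp (-T) * (q : ℝ) ^ Fintype.card I := by
    set z : ℝ := Real.exp (1 / 100) with hz
    have hzb : z - 1 ≤ 101 / 10000 := by
      have := Real.abs_exp_sub_one_sub_id_le (x := 1 / 100) (by norm_num [abs_of_pos])
      have h2 := (abs_le.1 this).2
      rw [← hz] at h2
      linarith
    have hz1 : 0 ≤ z - 1 := by
      have := Real.add_one_le_exp (1 / 100 : ℝ)
      rw [← hz] at this
      linarith
    have hM := Pool.Agent.H76.SCD.markov1
      (fun f : I → Fin q => Γ (Xc f) (Yc f) ∧ (21 / 20) * (t * (a * b)) < (Z f : ℝ))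
      (fun f => ind (Γ (Xc f) (Yc f)) * z ^ (Z f))
      (fun f => mul_nonneg (ind_nonneg _) (by positivity))
      (Real.exp ((1 / 100) * ((21 / 20) * (t * (a * b))))) (by
        rintro f ⟨h1, h2⟩
        rw [ind_pos h1, one_mul, hz, ← Real.exp_nat_mul]
        apply Real.exp_le_exp.2
        linarith)
    rw [hmgf z, ← cn_eq] at hM
    have hS : ∑ f : I → Fin q, ind (Γ (Xc f) (Yc f)) * (1 + (z - 1) * t) ^ (Xc f * Yc f)
        ≤ (q : ℝ) ^ Fintype.card I * Real.exp (101 / 10000 * t * ((101 / 100) * a * ((101 / 100) * b))) := by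
      have : (q : ℝ) ^ Fintype.card I * Real.exp (101 / 10000 * t * ((101 / 100) * a * ((101 / 100) * b)))
          = ∑ _f : I → Fin q, Real.exp (101 / 10000 * t * ((101 / 100) * a * ((101 / 100) * b))) := by
        rw [sum_const, card_univ, Fintype.card_fun, Fintype.card_fin, nsmul_eq_mul]
        push_cast
        rfl
      rw [this]
      refine sum_le_sum fun f _ => ?_
      by_cases h : Γ (Xc f) (Yc f)
      · rw [ind_pos h, one_mul]
        calc (1 + (z - 1) * t) ^ (Xc f * Yc f) ≤ (Real.exp ((z - 1) * t)) ^ (Xc f * Yc f) := by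
              apply pow_le_pow_left₀ (by positivity)
              have := Real.add_one_le_exp ((z - 1) * t)
              linarith
          _ = Real.exp (((Xc f * Yc f : ℕ) : ℝ) * ((z - 1) * t)) := by rw [← Real.exp_nat_mul]
          _ ≤ _ := by
              apply Real.exp_le_exp.2
              have h1 := hΓup _ _ h
              calc ((Xc f * Yc f : ℕ) : ℝ) * ((z - 1) * t)
                  ≤ ((101 / 100) * a * ((101 / 100) * b)) * ((101 / 10000) * t) := by
                    apply mul_le_mul h1 (mul_le_mul_of_nonneg_right hzb ht0) (by positivity)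
                      (by positivity)
                _ = _ := by ring
      · rw [ind_neg h, zero_mul]
        exact (Real.exp_pos _).le
    have hfin : cn (fun f : I → Fin q => Γ (Xc f) (Yc f) ∧ (21 / 20) * (t * (a * b)) < (Z f : ℝ)) *
        Real.exp ((1 / 100) * ((21 / 20) * (t * (a * b))))
        ≤ (Real.exp (-T) * (q : ℝ) ^ Fintype.card I) *
          Real.exp ((1 / 100) * ((21 / 20) * (t * (a * b)))) := by
      refine le_trans hM (le_trans hS ?_)
      have : Real.exp (101 / 10000 * t * ((101 / 100) * a * ((101 / 100) * b)))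
          ≤ Real.exp (-T) * Real.exp ((1 / 100) * ((21 / 20) * (t * (a * b)))) := by
        rw [← Real.exp_add]
        apply Real.exp_le_exp.2
        nlinarith
      calc (q : ℝ) ^ Fintype.card I * Real.exp (101 / 10000 * t * ((101 / 100) * a * ((101 / 100) * b)))
          ≤ (q : ℝ) ^ Fintype.card I * (Real.exp (-T) * Real.exp ((1 / 100) * ((21 / 20) * (t * (a * b))))) :=
            mul_le_mul_of_nonneg_left this hQ
        _ = _ := by ring
    exact le_of_mul_le_mul_right hfin (Real.exp_pos _)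
  -- lower tail
  have hlo : cn (fun f : I → Fin q => Γ (Xc f) (Yc f) ∧ (Z f : ℝ) < (19 / 20) * (t * (a * b)))
      ≤ Real.exp (-T) * (q : ℝ) ^ Fintype.card I := by
    set z : ℝ := Real.exp (-(1 / 100)) with hz
    have hzb : z - 1 ≤ - (99 / 10000) := by
      have := Real.abs_exp_sub_one_sub_id_le (x := -(1 / 100)) (by rw [abs_neg]; norm_num [abs_of_pos])
      have h2 := (abs_le.1 this).2
      rw [← hz] at h2
      linarith
    have hz1 : -1 ≤ z - 1 := by
      have := Real.exp_pos (-(1 / 100) : ℝ)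
      rw [← hz] at this
      linarith
    have hM := Pool.Agent.H76.SCD.markov1
      (fun f : I → Fin q => Γ (Xc f) (Yc f) ∧ (Z f : ℝ) < (19 / 20) * (t * (a * b)))
      (fun f => ind (Γ (Xc f) (Yc f)) * z ^ (Z f))
      (fun f => mul_nonneg (ind_nonneg _) (by positivity))
      (Real.exp (-(1 / 100) * ((19 / 20) * (t * (a * b))))) (by
        rintro f ⟨h1, h2⟩
        rw [ind_pos h1, one_mul, hz, ← Real.exp_nat_mul]
        apply Real.exp_le_exp.2
        linarith)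
    rw [hmgf z, ← cn_eq] at hM
    have hS : ∑ f : I → Fin q, ind (Γ (Xc f) (Yc f)) * (1 + (z - 1) * t) ^ (Xc f * Yc f)
        ≤ (q : ℝ) ^ Fintype.card I * Real.exp (-(99 / 10000) * t * ((99 / 100) * a * ((99 / 100) * b))) := by
      have : (q : ℝ) ^ Fintype.card I * Real.exp (-(99 / 10000) * t * ((99 / 100) * a * ((99 / 100) * b)))
          = ∑ _f : I → Fin q, Real.exp (-(99 / 10000) * t * ((99 / 100) * a * ((99 / 100) * b))) := by
        rw [sum_const, card_univ, Fintype.card_fun, Fintype.card_fin, nsmul_eq_mul]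
        push_cast
        rfl
      rw [this]
      refine sum_le_sum fun f _ => ?_
      by_cases h : Γ (Xc f) (Yc f)
      · rw [ind_pos h, one_mul]
        calc (1 + (z - 1) * t) ^ (Xc f * Yc f) ≤ (Real.exp ((z - 1) * t)) ^ (Xc f * Yc f) := by
              apply pow_le_pow_left₀
              · nlinarith
              · have := Real.add_one_le_exp ((z - 1) * t)
                linarith
          _ = Real.exp (((Xc f * Yc f : ℕ) : ℝ) * ((z - 1) * t)) := by rw [← Real.exp_nat_mul]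
          _ ≤ _ := by
              apply Real.exp_le_exp.2
              have h1 := hΓlo _ _ h
              have h2 : (z - 1) * t ≤ (-(99 / 10000)) * t := mul_le_mul_of_nonneg_right hzb ht0
              have h3 : ((Xc f * Yc f : ℕ) : ℝ) * ((99 / 10000) * t)
                  ≥ ((99 / 100) * a * ((99 / 100) * b)) * ((99 / 10000) * t) :=
                mul_le_mul_of_nonneg_right h1 (by positivity)
              have h4 : ((Xc f * Yc f : ℕ) : ℝ) * ((z - 1) * t)
                  ≤ ((Xc f * Yc f : ℕ) : ℝ) * ((-(99 / 10000)) * t) :=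
                mul_le_mul_of_nonneg_left h2 (Nat.cast_nonneg _)
              linarith
      · rw [ind_neg h, zero_mul]
        exact (Real.exp_pos _).le
    have hfin : cn (fun f : I → Fin q => Γ (Xc f) (Yc f) ∧ (Z f : ℝ) < (19 / 20) * (t * (a * b))) *
        Real.exp (-(1 / 100) * ((19 / 20) * (t * (a * b))))
        ≤ (Real.exp (-T) * (q : ℝ) ^ Fintype.card I) *
          Real.exp (-(1 / 100) * ((19 / 20) * (t * (a * b)))) := by
      refine le_trans hM (le_trans hS ?_)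
      have : Real.exp (-(99 / 10000) * t * ((99 / 100) * a * ((99 / 100) * b)))
          ≤ Real.exp (-T) * Real.exp (-(1 / 100) * ((19 / 20) * (t * (a * b)))) := by
        rw [← Real.exp_add]
        apply Real.exp_le_exp.2
        nlinarith
      calc (q : ℝ) ^ Fintype.card I * Real.exp (-(99 / 10000) * t * ((99 / 100) * a * ((99 / 100) * b)))
          ≤ (q : ℝ) ^ Fintype.card I * (Real.exp (-T) * Real.exp (-(1 / 100) * ((19 / 20) * (t * (a * b))))) :=
            mul_le_mul_of_nonneg_left this hQ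
        _ = _ := by ring
    exact le_of_mul_le_mul_right hfin (Real.exp_pos _)
  -- union
  refine le_trans (cn_mono (Q := fun f => (((Xc f : ℝ) ≤ (99 / 100) * a ∨ (101 / 100) * a ≤ (Xc f : ℝ)) ∨
      ((Yc f : ℝ) ≤ (99 / 100) * b ∨ (101 / 100) * b ≤ (Yc f : ℝ))) ∨
      ((Γ (Xc f) (Yc f) ∧ (21 / 20) * (t * (a * b)) < (Z f : ℝ)) ∨
       (Γ (Xc f) (Yc f) ∧ (Z f : ℝ) < (19 / 20) * (t * (a * b))))) ?_) ?_
  · intro f hf
    by_cases h1 : ((Xc f : ℝ) ≤ (99 / 100) * a ∨ (101 / 100) * a ≤ (Xc f : ℝ))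
    · exact Or.inl (Or.inl h1)
    by_cases h2 : ((Yc f : ℝ) ≤ (99 / 100) * b ∨ (101 / 100) * b ≤ (Yc f : ℝ))
    · exact Or.inl (Or.inr h2)
    right
    have hg : Γ (Xc f) (Yc f) := ⟨h1, h2⟩
    by_cases h3 : (19 / 20) * (t * (a * b)) ≤ (Z f : ℝ)
    · left
      refine ⟨hg, ?_⟩
      by_contra h4
      exact hf ⟨h3, not_lt.1 h4⟩
    · right
      exact ⟨hg, not_le.1 h3⟩
  · refine le_trans (cn_or_le _ _) ?_
    have k1 := cn_or_le (fun f : I → Fin q => ((Xc f : ℝ) ≤ (99 / 100) * a ∨ (101 / 100) * a ≤ (Xc f : ℝ)))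
      (fun f : I → Fin q => ((Yc f : ℝ) ≤ (99 / 100) * b ∨ (101 / 100) * b ≤ (Yc f : ℝ)))
    have k2 := cn_or_le (fun f : I → Fin q => Γ (Xc f) (Yc f) ∧ (21 / 20) * (t * (a * b)) < (Z f : ℝ))
      (fun f : I → Fin q => Γ (Xc f) (Yc f) ∧ (Z f : ℝ) < (19 / 20) * (t * (a * b)))
    linarith

end Tail

end Pool.Agent.H38.SCD
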