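import Pool.Agent.H18.SCD.T4
import Pool.Agent.H18.SCD.Q2
import Pool.Agent.H38.SCD.LLL

set_option autoImplicit false

/-!
# Central levels, quantitative: a random labelling of the edges and the local lemma
-/

namespace Pool.Agent.H38.SCD

open Finset Pool.Agent.H18.SCD

section Dep

variable {n k : ℕ}

/-- the edges near the vertex `A` -/
def near (A : V n) : Finset (V n × Fin n) := univ.filter fun e => (symmDiff A e.1).card ≤ 2

theorem mem_near {A : V n} {e : V n × Fin n} : e ∈ near A ↔ (symmDiff A e.1).card ≤ 2 := by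
  simp [near]

theorem near_par {A : V n} {x y : Fin n} (z : Fin n) : (insert x (A.erase y), z) ∈ near A := by
  rw [mem_near]
  have h : symmDiff A (insert x (A.erase y)) ⊆ {x, y} := by
    intro t ht
    rw [mem_symmDiff] at ht
    simp only [mem_insert, mem_erase, mem_singleton] at ht ⊢
    tauto
  exact le_trans (card_le_card h) (card_le_two)

theorem near_self {A : V n} (z : Fin n) : (A, z) ∈ near A := by
  rw [mem_near]
  simp

theorem card_symmDiff_tri (A B C : V n) :
    (symmDiff A C).card ≤ (symmDiff A B).card + (symmDiff C B).card := by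
  refine le_trans (card_le_card ?_) (card_union_le _ _)
  intro t ht
  rw [mem_union, mem_symmDiff, mem_symmDiff]
  rw [mem_symmDiff] at ht
  tauto

/-- at most `5 n^4` sets are at distance at most `4` from `A` -/
theorem card_ball (hn : 1 ≤ n) (A : V n) :
    (univ.filter fun B : V n => (symmDiff A B).card ≤ 4).card ≤ 5 * n ^ 4 := by
  classical
  have h1 : (univ.filter fun B : V n => (symmDiff A B).card ≤ 4)
      ⊆ (range 5).biUnion fun i => (powersetCard i (univ : Finset (Fin n))).image fun W => symmDiff A W := by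
    intro B hB
    rw [mem_filter] at hB
    rw [mem_biUnion]
    refine ⟨(symmDiff A B).card, mem_range.2 (by omega), mem_image.2 ⟨symmDiff A B, ?_, ?_⟩⟩
    · rw [mem_powersetCard]
      exact ⟨subset_univ _, rfl⟩
    · exact symmDiff_symmDiff_cancel_left A B
  refine le_trans (card_le_card h1) (le_trans card_biUnion_le ?_)
  have h2 : ∀ i ∈ range 5,
      ((powersetCard i (univ : Finset (Fin n))).image fun W => symmDiff A W).card ≤ n ^ 4 := by
    intro i hi
    rw [mem_range] at hi
    refine le_trans card_image_le ?_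
    rw [card_powersetCard, card_univ, Fintype.card_fin]
    refine le_trans (Nat.choose_le_pow n i) ?_
    exact Nat.pow_le_pow_right hn (by omega)
  refine le_trans (sum_le_sum h2) ?_
  simp

theorem card_dep (hn : 1 ≤ n) (e : V n × Fin n) :
    (univ.filter fun e' : V n × Fin n => ¬ Disjoint (near e'.1) (near e.1)).card ≤ 5 * n ^ 5 := by
  classical
  have h1 : (univ.filter fun e' : V n × Fin n => ¬ Disjoint (near e'.1) (near e.1))
      ⊆ (univ.filter fun B : V n => (symmDiff e.1 B).card ≤ 4) ×ˢ (univ : Finset (Fin n)) := by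
    intro e' he'
    rw [mem_filter, not_disjoint_iff] at he'
    obtain ⟨-, g, hg1, hg2⟩ := he'
    rw [mem_near] at hg1 hg2
    rw [mem_product, mem_filter]
    refine ⟨⟨mem_univ _, ?_⟩, mem_univ _⟩
    have := card_symmDiff_tri e.1 g.1 e'.1
    omega
  refine le_trans (card_le_card h1) ?_
  rw [card_product, card_univ, Fintype.card_fin]
  have := card_ball hn e.1
  calc _ ≤ 5 * n ^ 4 * n := Nat.mul_le_mul_right _ this
    _ = 5 * n ^ 5 := by ring

/-- the class of colour `c` -/
def cls (f : V n × Fin n → Fin k) (c : Fin k) : V n → Fin n → Prop := fun A x => f (A, x) = c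

theorem hexN_congr {G G' : V n → Fin n → Prop} (i : ℕ) (A : V n) (x0 : Fin n)
    (h : ∀ e ∈ near A, (G e.1 e.2 ↔ G' e.1 e.2)) : hexN G i A x0 = hexN G' i A x0 := by
  classical
  unfold hexN
  refine congrArg card (filter_congr fun p _ => ?_)
  unfold hexOK
  have h1 := h (A, p.1) (near_self _)
  have h2 := h (par A p, p.2) (near_par _)
  have h3 := h (par A p, x0) (near_par _)
  have h4 := h (insert x0 (A.erase p.2), p.1) (near_par _)
  have h5 := h (insert x0 (A.erase p.2), p.2) (near_par _)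
  simp only at h1 h2 h3 h4 h5
  rw [h1, h2, h3, h4, h5]

end Dep

/-- lower mean value factor etc.: the count `hexN` of colour class `c` is not within `[lo i, hi i]` -/
def badAt {n k : ℕ} (lo hi : ℕ → ℝ) (f : V n × Fin n → Fin k) (c : Fin k) (i : ℕ) (A : V n)
    (x0 : Fin n) : Prop :=
  ¬ (lo i ≤ (hexN (cls f c) i A x0 : ℝ) ∧ (hexN (cls f c) i A x0 : ℝ) ≤ hi i)

/-- assembly of the central stage from the tail bound -/
theorem central_of_tail {n j k : ℕ} (hk : 1 ≤ k) (hj1 : 1 ≤ j) (hj : 2 * j + 1 ≤ n) (pt : ℝ)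
    (lo hi : ℕ → ℝ)
    (htail : ∀ (c : Fin k) (i : ℕ), i ≤ 5 → ∀ (A : V n) (x0 : Fin n), A.card = j → x0 ∉ A →
      cn (fun f : V n × Fin n → Fin k => badAt lo hi f c i A x0)
        ≤ pt * (k : ℝ) ^ Fintype.card (V n × Fin n))
    (hpt0 : 0 ≤ pt)
    (hpt : 4 * (6 * k * pt) * (5 * n ^ 5 : ℕ) ≤ 1)
    (h0 : 0 < lo 0) (h1 : 0 ≤ lo 1) (h3 : lo 3 = lo 1) (h5 : lo 5 = lo 1) (h4 : hi 4 = hi 2)
    (hnum : 0 ≤ 1 + 3 * lo 1 / hi 0 - 2 * hi 2 / lo 0) : Stage k n j := by
  classical
  have hn : 1 ≤ n := by omega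
  obtain ⟨f, hf⟩ := local_lemma (I := V n × Fin n) (q := k) (ι := V n × Fin n) hk
    (fun e f => e.1.card = j ∧ e.2 ∉ e.1 ∧ ∃ t : Fin k × Fin 6, badAt lo hi f t.1 t.2 e.1 e.2)
    (fun e => near e.1)
    (by
      intro e f g hfg
      have key : ∀ (c : Fin k) (i : ℕ), hexN (cls f c) i e.1 e.2 = hexN (cls g c) i e.1 e.2 := by
        intro c i
        refine hexN_congr i _ _ fun e' he' => ?_
        unfold cls
        rw [show (e'.1, e'.2) = e' from rfl, hfg e' he']
      unfold badAt
      simp only [key])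
    (6 * k * pt) (5 * n ^ 5) (by
      have : 1 ≤ n ^ 5 := Nat.one_le_pow _ _ hn
      omega)
    (by
      intro e
      by_cases he : e.1.card = j ∧ e.2 ∉ e.1
      · refine le_trans (cn_mono (Q := fun f => (∃ t ∈ (univ : Finset (Fin k × Fin 6)),
          badAt lo hi f t.1 t.2 e.1 e.2) ∧ True) ?_) ?_
        · rintro f ⟨_, _, t, ht⟩
          exact ⟨⟨t, mem_univ _, ht⟩, trivial⟩
        · refine le_trans (cn_exists_le (univ : Finset (Fin k × Fin 6))
            (fun t f => badAt lo hi f t.1 t.2 e.1 e.2) (fun _ => True)) ?_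
          refine le_trans (sum_le_sum (g := fun _ => pt * (k : ℝ) ^ Fintype.card (V n × Fin n))
            fun t _ => ?_) ?_
          · refine le_trans (cn_mono (Q := fun f => badAt lo hi f t.1 t.2 e.1 e.2) fun f h => h.1) ?_
            exact htail t.1 t.2 (by have := t.2.2; omega) e.1 e.2 he.1 he.2
          · rw [sum_const, card_univ, Fintype.card_prod, Fintype.card_fin, Fintype.card_fin,
              nsmul_eq_mul]
            push_cast
            apply le_of_eq
            ring
      · have h0 : cn (fun f : V n × Fin n → Fin k => e.1.card = j ∧ e.2 ∉ e.1 ∧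
            ∃ t : Fin k × Fin 6, badAt lo hi f t.1 t.2 e.1 e.2) = 0 := by
          rw [cn_eq]
          rw [Finset.filter_false_of_mem]
          · simp
          · intro f _ h
            exact he ⟨h.1, h.2.1⟩
        rw [h0]
        positivity)
    (fun e => card_dep hn e) (by exact_mod_cast hpt)
  have good : ∀ (c : Fin k) (i : ℕ), i ≤ 5 → ∀ (A : V n) (x0 : Fin n), A.card = j → x0 ∉ A →
      lo i ≤ (hexN (cls f c) i A x0 : ℝ) ∧ (hexN (cls f c) i A x0 : ℝ) ≤ hi i := by
    intro c i hi' A x0 hA hx0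
    by_contra h
    exact hf (A, x0) ⟨hA, hx0, (c, ⟨i, by omega⟩), h⟩
  have hN : ∀ c : Fin k, NMP j (fun A x => ¬ cls f c A x) := by
    intro c
    refine flow_nmp (cls f c) (lo 0) (hi 0) (lo 1) (hi 2) h0 h1 ?_ ?_ ?_ hnum
    · intro A x0 hA hx0
      exact good c 0 (by omega) A x0 hA hx0
    · intro A x0 hA hx0
      refine ⟨(good c 1 (by omega) A x0 hA hx0).1, ?_, ?_⟩
      · rw [← h3]; exact (good c 3 (by omega) A x0 hA hx0).1
      · rw [← h5]; exact (good c 5 (by omega) A x0 hA hx0).1
    · intro A x0 hA hx0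
      refine ⟨(good c 2 (by omega) A x0 hA hx0).2, ?_⟩
      rw [← h4]; exact (good c 4 (by omega) A x0 hA hx0).2
  intro σ hσ
  have hg := fun c : Fin k => griggs hj _ _ (hN c) (hN c) (σ c) (hσ c)
  choose α β hα hβ hL using hg
  refine ⟨α, β, fun c => ?_, fun c => ?_, hL, ?_⟩
  · exact ⟨fun A hA => ⟨((hα c).1 A hA).1, fun h => h⟩, (hα c).2⟩
  · exact ⟨fun A hA => ⟨((hβ c).1 A hA).1, fun h => h⟩, (hβ c).2⟩
  · intro c c' hcc A hA
    have e1 : f (A, α c A) = c := not_not.1 ((hα c).1 A hA).2
    have e2 : f (A, α c' A) = c' := not_not.1 ((hα c').1 A hA).2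
    have e3 : f (A, β c A) = c := not_not.1 ((hβ c).1 A hA).2
    have e4 : f (A, β c' A) = c' := not_not.1 ((hβ c').1 A hA).2
    refine ⟨fun h => hcc ?_, fun h => hcc ?_⟩
    · rw [← e1, ← e2, h]
    · rw [← e3, ← e4, h]

end Pool.Agent.H38.SCD
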