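import Pool.Agent.H38.SCD.Q3b
import Pool.Agent.H38.SCD.Q4

set_option autoImplicit false

namespace Pool.Agent.H38.SCD

open Finset Pool.Agent.H18.SCD

section Translate

variable {n j k : ℕ}

/-- the label set: `{c}` or its complement -/
def lab (c : Fin k) (i m : ℕ) : Finset (Fin k) := if i = m then {c}ᶜ else {c}

theorem mem_lab {c : Fin k} {i m : ℕ} {a : Fin k} : a ∈ lab c i m ↔ (a = c ↔ i ≠ m) := by
  unfold lab
  by_cases h : i = m
  · rw [if_pos h]; simp [h]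
  · rw [if_neg h]; simp [h]

theorem card_lab (hk : 1 ≤ k) (c : Fin k) (i m : ℕ) :
    ((lab c i m).card : ℝ) = if i = m then (k : ℝ) - 1 else 1 := by
  unfold lab
  by_cases h : i = m
  · rw [if_pos h, if_pos h, card_compl, card_singleton, Fintype.card_fin]
    push_cast [Nat.cast_sub hk]
    ring
  · rw [if_neg h, if_neg h, card_singleton]
    norm_num

/-- the `x`-coordinates -/
def XX (A : V n) (x0 : Fin n) : Finset (Fin n) := univ.filter fun x => x ∉ A ∧ x ≠ x0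

theorem mem_XX {A : V n} {x0 x : Fin n} : x ∈ XX A x0 ↔ x ∉ A ∧ x ≠ x0 := by simp [XX]

theorem card_XX {A : V n} {x0 : Fin n} (hA : A.card = j) (hx0 : x0 ∉ A) :
    (XX A x0).card = n - j - 1 := by
  have h : XX A x0 = (insert x0 A)ᶜ := by
    ext x
    rw [mem_XX, mem_compl, mem_insert]
    tauto
  rw [h, card_compl, Fintype.card_fin, card_insert_of_notMem hx0, hA]
  omega

theorem PP_eq (A : V n) (x0 : Fin n) : PP A x0 = XX A x0 ×ˢ A := by
  ext p
  rw [mem_PP, mem_product, mem_XX]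
  tauto

/-- the three outer maps -/
def ww (A : V n) (x0 : Fin n) (m : Fin 3) (p : Fin n × Fin n) : V n × Fin n :=
  if m = 0 then (par A p, p.2) else if m = 1 then (par A p, x0)
    else (insert x0 (A.erase p.2), p.1)

theorem ww0 (A : V n) (x0 : Fin n) (p : Fin n × Fin n) : ww A x0 0 p = (par A p, p.2) := rfl
theorem ww1 (A : V n) (x0 : Fin n) (p : Fin n × Fin n) : ww A x0 1 p = (par A p, x0) := rfl
theorem ww2 (A : V n) (x0 : Fin n) (p : Fin n × Fin n) :
    ww A x0 2 p = (insert x0 (A.erase p.2), p.1) := rfl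

theorem ins_inj1 {A : V n} {x x' y y' : Fin n} (hx : x ∉ A) (hy : y ∈ A) (_ : y' ∈ A)
    (h : insert x (A.erase y) = insert x' (A.erase y')) : x = x' ∧ y = y' := by
  have h1 : x ∈ insert x' (A.erase y') := h ▸ mem_insert_self _ _
  rw [mem_insert, mem_erase] at h1
  have e1 : x = x' := by
    rcases h1 with h1 | h1
    · exact h1
    · exact absurd h1.2 hx
  refine ⟨e1, ?_⟩
  by_contra hne
  have h2 : y ∈ insert x' (A.erase y') := mem_insert_of_mem (mem_erase.2 ⟨hne, hy⟩)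
  rw [← h, mem_insert, mem_erase] at h2
  rcases h2 with h2 | h2
  · exact hx (h2 ▸ hy)
  · exact h2.1 rfl

theorem ww_inj {A : V n} {x0 : Fin n} (hx0 : x0 ∉ A) :
    ∀ p ∈ XX A x0 ×ˢ A, ∀ p' ∈ XX A x0 ×ˢ A, ∀ m m', ww A x0 m p = ww A x0 m' p' →
      m = m' ∧ p = p' := by
  intro p hp p' hp' m m' h
  rw [mem_product, mem_XX] at hp hp'
  obtain ⟨⟨a1, a2⟩, a3⟩ := hp
  obtain ⟨⟨b1, b2⟩, b3⟩ := hp'
  fin_cases m <;> fin_cases m'
  · have h' : (par A p, p.2) = (par A p', p'.2) := h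
    rw [Prod.mk.injEq] at h'
    have := ins_inj1 a1 a3 b3 h'.1
    exact ⟨rfl, Prod.ext this.1 this.2⟩
  · exfalso
    have h' : (par A p, p.2) = (par A p', x0) := h
    rw [Prod.mk.injEq] at h'
    exact hx0 (h'.2 ▸ a3)
  · exfalso
    have h' : (par A p, p.2) = (insert x0 (A.erase p'.2), p'.1) := h
    rw [Prod.mk.injEq] at h'
    exact b1 (h'.2 ▸ a3)
  · exfalso
    have h' : (par A p, x0) = (par A p', p'.2) := h
    rw [Prod.mk.injEq] at h'
    exact hx0 (h'.2 ▸ b3)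
  · have h' : (par A p, x0) = (par A p', x0) := h
    rw [Prod.mk.injEq] at h'
    have := ins_inj1 a1 a3 b3 h'.1
    exact ⟨rfl, Prod.ext this.1 this.2⟩
  · exfalso
    have h' : (par A p, x0) = (insert x0 (A.erase p'.2), p'.1) := h
    rw [Prod.mk.injEq] at h'
    exact b2 h'.2.symm
  · exfalso
    have h' : (insert x0 (A.erase p.2), p.1) = (par A p', p'.2) := h
    rw [Prod.mk.injEq] at h'
    exact a1 (h'.2 ▸ b3)
  · exfalso
    have h' : (insert x0 (A.erase p.2), p.1) = (par A p', x0) := h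
    rw [Prod.mk.injEq] at h'
    exact a2 h'.2
  · have h' : (insert x0 (A.erase p.2), p.1) = (insert x0 (A.erase p'.2), p'.1) := h
    rw [Prod.mk.injEq] at h'
    have := ins_inj1 hx0 a3 b3 h'.1
    exact ⟨rfl, Prod.ext h'.2 this.2⟩

theorem ww_u {A : V n} {x0 : Fin n} (hx0 : x0 ∉ A) :
    ∀ p ∈ XX A x0 ×ˢ A, ∀ m, ∀ x ∈ XX A x0, ((A, x) : V n × Fin n) ≠ ww A x0 m p := by
  intro p hp m x _ h
  rw [mem_product, mem_XX] at hp
  obtain ⟨⟨a1, a2⟩, a3⟩ := hp
  have key : ∀ z, z ∉ A → A ≠ insert z (A.erase p.2) := by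
    intro z hz he
    exact hz (he ▸ mem_insert_self _ _)
  fin_cases m
  · have h' : (A, x) = (par A p, p.2) := h
    rw [Prod.mk.injEq] at h'
    exact key p.1 a1 h'.1
  · have h' : (A, x) = (par A p, x0) := h
    rw [Prod.mk.injEq] at h'
    exact key p.1 a1 h'.1
  · have h' : (A, x) = (insert x0 (A.erase p.2), p.1) := h
    rw [Prod.mk.injEq] at h'
    exact key x0 hx0 h'.1

theorem ww_v {A : V n} {x0 : Fin n} (hx0 : x0 ∉ A) :
    ∀ p ∈ XX A x0 ×ˢ A, ∀ m, ∀ y ∈ A, ((insert x0 (A.erase y), y) : V n × Fin n) ≠ ww A x0 m p := by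
  intro p hp m y hy h
  rw [mem_product, mem_XX] at hp
  obtain ⟨⟨a1, a2⟩, a3⟩ := hp
  fin_cases m
  · have h' : (insert x0 (A.erase y), y) = (par A p, p.2) := h
    rw [Prod.mk.injEq] at h'
    exact a2 (ins_inj1 hx0 hy a3 h'.1).1.symm
  · have h' : (insert x0 (A.erase y), y) = (par A p, x0) := h
    rw [Prod.mk.injEq] at h'
    exact a2 (ins_inj1 hx0 hy a3 h'.1).1.symm
  · have h' : (insert x0 (A.erase y), y) = (insert x0 (A.erase p.2), p.1) := h
    rw [Prod.mk.injEq] at h'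
    exact a1 (h'.2 ▸ hy)

theorem hexN_eq (f : V n × Fin n → Fin k) (c : Fin k) (i : ℕ) (A : V n) (x0 : Fin n) :
    hexN (cls f c) i A x0 = ((XX A x0 ×ˢ A).filter fun p =>
      (f (A, p.1) ∈ lab c i 1 ∧ f (insert x0 (A.erase p.2), p.2) ∈ lab c i 5) ∧
        f (ww A x0 0 p) ∈ lab c i 2 ∧ f (ww A x0 1 p) ∈ lab c i 3 ∧
          f (ww A x0 2 p) ∈ lab c i 4).card := by
  classical
  unfold hexN
  rw [PP_eq]
  refine congrArg card (filter_congr fun p _ => ?_)
  unfold hexOK cls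
  rw [mem_lab, mem_lab, mem_lab, mem_lab, mem_lab, ww0, ww1, ww2]
  constructor
  · rintro ⟨h1, h2, h3, h4, h5⟩
    exact ⟨⟨h1, h5⟩, h2, h3, h4⟩
  · rintro ⟨⟨h1, h5⟩, h2, h3, h4⟩
    exact ⟨h1, h2, h3, h4, h5⟩

/-- the product of the label proportions -/
theorem mean_eq (hk : 1 ≤ k) (c : Fin k) (i : ℕ) (hi : i ≤ 5) (a b : ℝ) :
    ((((lab c i 2).card : ℝ) / k) * (((lab c i 3).card : ℝ) / k) * (((lab c i 4).card : ℝ) / k)) *
      ((((lab c i 1).card : ℝ) / k * a) * (((lab c i 5).card : ℝ) / k * b))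
      = (if i = 0 then 1 else (k : ℝ) - 1) * (a * b / (k : ℝ) ^ 5) := by
  have hk' : (k : ℝ) ≠ 0 := by
    have : k ≠ 0 := by omega
    exact_mod_cast this
  simp only [card_lab hk]
  interval_cases i <;> simp (decide := true) only [if_true, if_false] <;> ring

end Translate

/-- translation of `nested_tail` to the hexagon counts of a colour class:
X = univ.filter (x ∉ A ∧ x ≠ x0), Y = A, u x = (A,x), v y = (insert x0 (A.erase y), y),
w 0 p = (par A p, p.2), w 1 p = (par A p, x0), w 2 p = (insert x0 (A.erase p.2), p.1),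
label sets {c} or its complement. -/
theorem hex_tail {n j k : ℕ} (hk : 2 ≤ k) (T : ℝ) (hT0 : 0 ≤ T) (c : Fin k) (i : ℕ) (hi : i ≤ 5)
    (A : V n) (x0 : Fin n) (hA : A.card = j) (hx0 : x0 ∉ A)
    (hT1 : 30000 * T * k ≤ ((n - j - 1 : ℕ) : ℝ)) (hT2 : 30000 * T * k ≤ (j : ℝ))
    (hT3 : 6000 * T * (k : ℝ) ^ 5 ≤ ((n - j - 1 : ℕ) : ℝ) * j) :
    cn (fun f : V n × Fin n → Fin k =>
        ¬ ((19 / 20) * ((if i = 0 then 1 else (k : ℝ) - 1) * (((n - j - 1 : ℕ) : ℝ) * j / (k : ℝ) ^ 5))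
            ≤ (hexN (cls f c) i A x0 : ℝ) ∧
          (hexN (cls f c) i A x0 : ℝ)
            ≤ (21 / 20) * ((if i = 0 then 1 else (k : ℝ) - 1) *
              (((n - j - 1 : ℕ) : ℝ) * j / (k : ℝ) ^ 5))))
      ≤ 6 * Real.exp (-T) * (k : ℝ) ^ Fintype.card (V n × Fin n) := by
  have hk0 : 0 < k := by omega
  have hk1 : 1 ≤ k := by omega
  have hkr : (2 : ℝ) ≤ k := by exact_mod_cast hk
  have hkpos : (0 : ℝ) < k := by linarith
  have hcard1 : ∀ m, (1 : ℝ) ≤ ((lab c i m).card : ℝ) := by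
    intro m
    rw [card_lab hk1]
    split_ifs <;> linarith
  have hlow : ∀ m (a : ℝ), 0 ≤ a → a / k ≤ ((lab c i m).card : ℝ) / k * a := by
    intro m a ha
    rw [div_mul_eq_mul_div]
    refine div_le_div_of_nonneg_right ?_ hkpos.le
    nlinarith [hcard1 m]
  have hX : (((XX A x0).card : ℕ) : ℝ) = ((n - j - 1 : ℕ) : ℝ) := by rw [card_XX hA hx0]
  have hY : ((A.card : ℕ) : ℝ) = (j : ℝ) := by rw [hA]
  have hmean := mean_eq hk1 c i hi ((n - j - 1 : ℕ) : ℝ) (j : ℝ)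
  have hfac : (1 : ℝ) ≤ (if i = 0 then 1 else (k : ℝ) - 1) := by
    split_ifs <;> linarith
  have h := nested_tail (I := V n × Fin n) (q := k) hk0 (XX A x0) A (fun x => (A, x))
    (fun y => (insert x0 (A.erase y), y)) (ww A x0)
    (by
      intro x _ x' _ h
      exact (Prod.mk.inj h).2)
    (by
      intro y _ y' _ h
      exact (Prod.mk.inj h).2)
    (ww_inj hx0) (ww_u hx0) (ww_v hx0) (lab c i 1) (lab c i 5)
    (fun m => lab c i (2 + (m : ℕ))) T
    (by
      rw [hX]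
      refine le_trans ?_ (hlow 1 _ (by positivity))
      rw [le_div_iff₀ hkpos]
      exact hT1)
    (by
      rw [hY]
      refine le_trans ?_ (hlow 5 _ (by positivity))
      rw [le_div_iff₀ hkpos]
      exact hT2)
    (by
      rw [hX, hY]
      simp only [Fin.val_zero, Fin.val_one, Fin.val_two, add_zero]
      norm_num
      rw [hmean]
      have h5 : 6000 * T ≤ ((n - j - 1 : ℕ) : ℝ) * j / (k : ℝ) ^ 5 := by
        rw [le_div_iff₀ (by positivity)]
        exact hT3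
      have h6 : 0 ≤ ((n - j - 1 : ℕ) : ℝ) * j / (k : ℝ) ^ 5 := by positivity
      nlinarith)
  refine le_trans (cn_mono ?_) h
  intro f hf hcon
  apply hf
  have e1 := hexN_eq f c i A x0
  simp only [Fin.val_zero, Fin.val_one, Fin.val_two, add_zero] at hcon
  norm_num only at hcon
  rw [hX, hY, hmean] at hcon
  rw [e1]
  exact hcon

end Pool.Agent.H38.SCD
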