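import Pool.Agent.H38.SCD.Q3c

set_option autoImplicit false

/-!
# Central levels, quantitative: numerics
-/

namespace Pool.Agent.H38.SCD

open Finset Pool.Agent.H18.SCD

theorem central_num {k n j : ℕ} (hk : 2 ≤ k) (h1 : 480000 * k * (Nat.log 2 n + 1) ≤ j)
    (h2 : 2 * k ^ 4 + 1 ≤ n) (hj : 2 * j + 1 ≤ n) : Stage k n j := by
  set l : ℕ := Nat.log 2 n + 1 with hl
  have hl1 : 1 ≤ l := by omega
  have hn0 : n ≠ 0 := by omega
  have hnl : n < 2 ^ l := Nat.lt_pow_succ_log_self (by norm_num) n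
  have hk4 : k ≤ k ^ 4 := Nat.le_self_pow (by norm_num) k
  have hkn : k ≤ n := by omega
  have hj1 : 1 ≤ j := by
    have : 1 ≤ 480000 * k * l := by
      have : 0 < 480000 * k * l := by positivity
      omega
    omega
  obtain ⟨a, ha⟩ : ∃ a : ℕ, a = n - j - 1 := ⟨_, rfl⟩
  have haj : j ≤ a := by omega
  have hak : k ^ 4 ≤ a := by omega
  have hkr : (2 : ℝ) ≤ k := by exact_mod_cast hk
  have hlr : (1 : ℝ) ≤ l := by exact_mod_cast hl1
  have h1r : 480000 * (k : ℝ) * l ≤ j := by exact_mod_cast h1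
  have hajr : (j : ℝ) ≤ a := by exact_mod_cast haj
  have hakr : (k : ℝ) ^ 4 ≤ a := by exact_mod_cast hak
  have hjr : (1 : ℝ) ≤ j := by exact_mod_cast hj1
  have har : (1 : ℝ) ≤ a := le_trans hjr hajr
  set T : ℝ := 16 * l with hT
  have hT0 : 0 ≤ T := by positivity
  have hT1 : 30000 * T * k ≤ ((n - j - 1 : ℕ) : ℝ) := by
    rw [← ha]
    nlinarith
  have hT2 : 30000 * T * k ≤ (j : ℝ) := by nlinarith
  have hT3 : 6000 * T * (k : ℝ) ^ 5 ≤ ((n - j - 1 : ℕ) : ℝ) * j := by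
    rw [← ha]
    have e1 : (k : ℝ) ^ 4 * (480000 * (k : ℝ) * l) ≤ a * j :=
      mul_le_mul hakr h1r (by positivity) (by positivity)
    have e2 : 0 ≤ (k : ℝ) ^ 5 * l := by positivity
    calc 6000 * T * (k : ℝ) ^ 5 = 96000 * ((k : ℝ) ^ 5 * l) := by rw [hT]; ring
      _ ≤ 480000 * ((k : ℝ) ^ 5 * l) := by linarith
      _ = (k : ℝ) ^ 4 * (480000 * (k : ℝ) * l) := by ring
      _ ≤ a * j := e1
  have htail : ∀ (c : Fin k) (i : ℕ), i ≤ 5 → ∀ (A : V n) (x0 : Fin n), A.card = j → x0 ∉ A →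
      cn (fun f : V n × Fin n → Fin k => badAt
        (fun i => (19 / 20) * ((if i = 0 then 1 else (k : ℝ) - 1) *
          (((n - j - 1 : ℕ) : ℝ) * j / (k : ℝ) ^ 5)))
        (fun i => (21 / 20) * ((if i = 0 then 1 else (k : ℝ) - 1) *
          (((n - j - 1 : ℕ) : ℝ) * j / (k : ℝ) ^ 5))) f c i A x0)
        ≤ (6 * Real.exp (-T)) * (k : ℝ) ^ Fintype.card (V n × Fin n) := by
    intro c i hi A x0 hA hx0
    exact hex_tail hk T hT0 c i hi A x0 hA hx0 hT1 hT2 hT3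
  have hM : 0 < (((n - j - 1 : ℕ) : ℝ) * j / (k : ℝ) ^ 5) := by
    rw [← ha]
    positivity
  refine central_of_tail (by omega) hj1 hj (6 * Real.exp (-T)) _ _ htail (by positivity) ?_ ?_ ?_
    (by norm_num) (by norm_num) (by norm_num) ?_
  · -- numerical condition of the local lemma
    have hexp : (2 : ℝ) ^ (16 * l) ≤ Real.exp T := by
      have h3 : (2 : ℝ) ≤ Real.exp 1 := by
        have := Real.add_one_le_exp (1 : ℝ)
        linarith
      calc (2 : ℝ) ^ (16 * l) ≤ (Real.exp 1) ^ (16 * l) := pow_le_pow_left₀ (by norm_num) h3 _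
        _ = Real.exp T := by
            rw [← Real.exp_nat_mul, hT]
            push_cast
            ring_nf
    have hnat : 4 * (6 * k * 6) * (5 * n ^ 5) ≤ 2 ^ (16 * l) := by
      have e1 : k * n ^ 5 ≤ n ^ 6 := by
        calc k * n ^ 5 ≤ n * n ^ 5 := Nat.mul_le_mul_right _ hkn
          _ = n ^ 6 := by ring
      have e2 : n ^ 6 ≤ (2 ^ l) ^ 6 := Nat.pow_le_pow_left hnl.le 6
      have e3 : 720 ≤ 2 ^ (10 * l) := by
        calc 720 ≤ 2 ^ 10 := by norm_num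
          _ ≤ 2 ^ (10 * l) := Nat.pow_le_pow_right (by norm_num) (by omega)
      calc 4 * (6 * k * 6) * (5 * n ^ 5) = 720 * (k * n ^ 5) := by ring
        _ ≤ 2 ^ (10 * l) * (2 ^ l) ^ 6 := Nat.mul_le_mul e3 (le_trans e1 e2)
        _ = 2 ^ (16 * l) := by
            rw [← pow_mul, ← pow_add]
            congr 1
            ring
    have hreal : (4 * (6 * (k : ℝ) * 6) * (5 * (n : ℝ) ^ 5)) ≤ Real.exp T := by
      refine le_trans ?_ hexp
      exact_mod_cast hnat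
    have hpos := Real.exp_pos T
    push_cast
    rw [Real.exp_neg]
    calc 4 * (6 * (k : ℝ) * (6 * (Real.exp T)⁻¹)) * (5 * (n : ℝ) ^ 5)
        = (4 * (6 * (k : ℝ) * 6) * (5 * (n : ℝ) ^ 5)) * (Real.exp T)⁻¹ := by ring
      _ ≤ Real.exp T * (Real.exp T)⁻¹ := mul_le_mul_of_nonneg_right hreal (by positivity)
      _ = 1 := mul_inv_cancel₀ hpos.ne'
  · simp only [if_true]
    positivity
  · have : (0 : ℝ) ≤ (k : ℝ) - 1 := by linarith
    simp only [one_ne_zero, if_false]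
    positivity
  · obtain ⟨M, hMdef⟩ : ∃ M : ℝ, M = (((n - j - 1 : ℕ) : ℝ) * j / (k : ℝ) ^ 5) := ⟨_, rfl⟩
    rw [← hMdef] at hM ⊢
    simp only [one_ne_zero, if_false, if_true, OfNat.ofNat_ne_zero]
    have e1 : 3 * ((19 / 20 : ℝ) * (((k : ℝ) - 1) * M)) / (21 / 20 * (1 * M)) = (57 / 21) * ((k : ℝ) - 1) := by
      field_simp
      ring
    have e2 : 2 * ((21 / 20 : ℝ) * (((k : ℝ) - 1) * M)) / (19 / 20 * (1 * M)) = (42 / 19) * ((k : ℝ) - 1) := by
      field_simp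
      ring
    rw [e1, e2]
    nlinarith

theorem central_quant : ∃ C : ℕ, ∀ k n j : ℕ, 2 ≤ k → C * k * (Nat.log 2 n + 1) ≤ j →
    2 * k ^ 4 + 1 ≤ n → 2 * j + 1 ≤ n → Stage k n j :=
  ⟨480000, fun _ _ _ hk h1 h2 hj => central_num hk h1 h2 hj⟩

end Pool.Agent.H38.SCD
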